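import Mathlib

/-!
# A counterexample to the rainbow matching question under `|F_i| ≥ i n`

Rows and columns of `K_(n,n)` are divided into ten types each.  Every row type `x` carries an
integer weight `V x`, every column type `y` an integer weight `W y`, and an edge has the weight
`V x + W y`.  Each `F_i` consists of all edges whose weight is at least a threshold.  The sum of the
thresholds is one less than the total weight of any perfect matching, so in a rainbow matching all
edges but one have exactly the threshold weight, and the last has excess one; a parity argument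
shows that this is impossible.
-/

namespace Pool.Agent.Results.MP_0e6f11_co.SizeConditionFails

open Finset

/-- The number of vertices on each side. -/
def nn : ℕ := 1717986918400

def rho : Fin 10 → ℕ :=
  ![354009743360, 166597754880, 171809177600, 5022679040, 171803934720, 161402060800,
    343586580790, 10802890, 338386294090, 5357890230]

def gam : Fin 10 → ℕ :=
  ![167776950, 5699005770, 177009950885, 166592675675, 338564055040, 166430146560, 182541025280,
    10391715840, 332518850560, 338071715840]

def V : Fin 10 → ℤ := ![1, 0, 22, 17, 84, 81, 180, 179, 218, 217]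

def W : Fin 10 → ℤ := ![1, 0, -15, -20, -77, -80, -179, -180, -219, -220]

/-- the levels of the weight function -/
def lv : Fin 82 → ℤ :=
  ![219, 218, 217, 203, 202, 198, 197, 181, 180, 179, 165, 164, 160, 159, 141, 140, 138, 137, 103,
    102, 100, 99, 85, 84, 82, 81, 69, 66, 64, 61, 39, 38, 37, 23, 22, 18, 17, 7, 4, 2, 1, 0, -1,
    -2, -3, -14, -15, -19, -20, -39, -40, -41, -55, -58, -60, -63, -76, -77, -79, -80, -95, -96,
    -98, -99, -135, -136, -138, -139, -157, -158, -162, -163, -178, -179, -180, -197, -198,
    -202, -203, -218, -219, -220]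

/-- the gaps between consecutive levels -/
def dl : Fin 82 → ℤ :=
  ![1, 1, 14, 1, 4, 1, 16, 1, 1, 14, 1, 4, 1, 18, 1, 2, 1, 34, 1, 2, 1, 14, 1, 2, 1, 12, 3, 2, 3,
    22, 1, 1, 14, 1, 4, 1, 10, 3, 2, 1, 1, 1, 1, 1, 11, 1, 4, 1, 19, 1, 1, 14, 3, 2, 3, 13, 1,
    2, 1, 15, 1, 2, 1, 36, 1, 2, 1, 18, 1, 4, 1, 15, 1, 1, 17, 1, 4, 1, 15, 1, 1, 2]

/-- the parity change between consecutive levels -/
def ta : Fin 82 → ℕ :=
  ![0, 0, 0, 0, 0, 0, 0, 0, 0, 0, 0, 0, 0, 1, 0, 1, 0, 1, 0, 1, 0, 1, 0, 1, 0, 1, 1, 1, 1, 0, 0,
    0, 0, 0, 0, 0, 0, 1, 1, 0, 0, 0, 0, 0, 0, 0, 0, 0, 0, 0, 0, 1, 1, 1, 1, 1, 0, 1, 0, 1, 0, 1,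
    0, 1, 0, 1, 0, 0, 0, 0, 0, 0, 0, 0, 0, 0, 0, 0, 0, 0, 0, 0]

/-- number of sets contained in each upper level set -/
def kk : Fin 82 → ℕ :=
  ![33046480, 1156084352, 1173857856, 36038932005, 36590973395, 69404190737, 69923743744,
    69957298079, 71097064452, 71097100288, 106497977407, 106499090465, 139816578047,
    139817625600, 206503486051, 207559366642, 240340571153, 240859617280, 308570299360,
    308572428288, 341857411069, 341858457600, 341875235807, 342445153776, 342460916146,
    342996328416, 360697863696, 377327659039, 393987435007, 409638544384, 445593056262,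
    448209169889, 448241578560, 448258357279, 448828292640, 448828783150, 448845444672,
    500404958863, 548856020591, 566068380668, 619401889332, 622033962721, 687529184257,
    755155097654, 756696490464, 793171300961, 810336426081, 844664644608, 860819578880,
    927321258077, 994935566328, 994937692160, 1028796164095, 1045440194560, 1046430015009,
    1046916587520, 1116681364511, 1149512820239, 1183807547888, 1199946721280, 1218201380879,
    1219240584176, 1236390014911, 1237366299616, 1270619199439, 1304427402736, 1335667004831,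
    1367428289536, 1385683506206, 1386722741216, 1387256415234, 1387286796288, 1424901344350,
    1444744157632, 1445751869920, 1479005784510, 1512815019520, 1513787166306, 1514775547360,
    1583294644734, 1685203206112, 1717986918400]

/-- number of cells in an upper level set -/
def cells (t : ℤ) : ℕ := ∑ x, ∑ y, if t ≤ V x + W y then rho x * gam y else 0

def ph (x y : Fin 10) : ℕ := (if x = 4 then 1 else 0) + (if y = 4 then 1 else 0)

lemma sum_rho : ∑ x, rho x = nn := by decide +kernel
lemma sum_gam : ∑ x, gam x = nn := by decide +kernel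
lemma lv_anti : ∀ i j : Fin 82, i ≤ j → lv j ≤ lv i := by decide +kernel
lemma kk_le : ∀ j : Fin 82, kk j ≤ nn := by decide +kernel
lemma kk_last : kk 81 = nn := by decide +kernel
lemma kk_cells : ∀ j : Fin 82, kk j * nn ≤ cells (lv j) := by decide +kernel
lemma weight_eq : ∀ x y : Fin 10,
    V x + W y = -222 + ∑ j : Fin 82, if lv j ≤ V x + W y then dl j else 0 := by
  decide +kernel
lemma parity_eq : ∀ x y : Fin 10,
    ph x y % 2 = (∑ j : Fin 82, if lv j ≤ V x + W y then ta j else 0) % 2 := by
  decide +kernel
lemma dl_nonneg : ∀ j : Fin 82, 0 ≤ dl j := by decide +kernel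
lemma ta_dl : ∀ j : Fin 82, ta j = 0 ∨ 2 ≤ dl j := by decide +kernel
lemma total_eq : (∑ x, (rho x : ℤ) * V x) + ∑ y, (gam y : ℤ) * W y
    = (nn : ℤ) * (-222) + (∑ j, dl j * (kk j : ℤ)) + 1 := by decide +kernel
lemma total_parity : (rho 4 + gam 4) % 2 ≠ (∑ j, ta j * kk j) % 2 := by decide +kernel

/-- A function on `Fin n` with prescribed fibre sizes. -/
lemma exists_type (r : Fin 10 → ℕ) {n : ℕ} (h : ∑ x, r x = n) :
    ∃ t : Fin n → Fin 10, ∀ x, (univ.filter (fun a => t a = x)).card = r x := by
  have hc : Fintype.card (Σ x : Fin 10, Fin (r x)) = n := by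
    rw [Fintype.card_sigma]; simpa using h
  let e : (Σ x : Fin 10, Fin (r x)) ≃ Fin n := Fintype.equivFinOfCardEq hc
  refine ⟨fun a => (e.symm a).1, fun x => ?_⟩
  have h1 : (univ : Finset (Fin (r x))).card
      = (univ.filter (fun a : Fin n => (e.symm a).1 = x)).card := by
    refine Finset.card_bij (fun c _ => e ⟨x, c⟩) ?_ ?_ ?_
    · intro c _; simp
    · intro c _ c' _ hcc
      have := e.injective hcc
      simpa using this
    · intro a ha
      simp only [mem_filter, mem_univ, true_and] at ha
      subst ha
      exact ⟨(e.symm a).2, mem_univ _, by simp⟩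
  rw [← h1]; simp

lemma sum_type {M : Type*} [AddCommMonoid M] {n : ℕ} {t : Fin n → Fin 10} {r : Fin 10 → ℕ}
    (h : ∀ x, (univ.filter (fun a => t a = x)).card = r x) (g : Fin 10 → M) :
    ∑ a, g (t a) = ∑ x, r x • g x := by
  rw [← Finset.sum_fiberwise univ t (fun a => g (t a))]
  refine sum_congr rfl fun x _ => ?_
  rw [← h x, ← sum_const]
  refine sum_congr rfl fun a ha => ?_
  simp only [mem_filter, mem_univ, true_and] at ha
  rw [ha]

/-- The main construction. -/
theorem main {n : ℕ} (hn : n = nn) : ∃ F : Fin n → Finset (Fin n × Fin n),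
    (∀ i : Fin n, ((i : ℕ) + 1) * n ≤ (F i).card) ∧
    ¬ ∃ e : Fin n → Fin n × Fin n, (∀ i, e i ∈ F i) ∧
      ∀ i j, i ≠ j → (e i).1 ≠ (e j).1 ∧ (e i).2 ≠ (e j).2 := by
  obtain ⟨tR, hR⟩ := exists_type rho (n := n) (by rw [sum_rho, hn])
  obtain ⟨tC, hC⟩ := exists_type gam (n := n) (by rw [sum_gam, hn])
  let w : Fin n × Fin n → ℤ := fun p => V (tR p.1) + W (tC p.2)
  have hcard : ∀ t : ℤ, (univ.filter (fun p => t ≤ w p)).card = cells t := by
    intro t
    rw [Finset.card_filter, Fintype.sum_prod_type]
    have h1 : ∀ a : Fin n, ∑ b : Fin n, (if t ≤ w (a, b) then 1 else 0)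
        = ∑ y, gam y * (if t ≤ V (tR a) + W y then 1 else 0) := by
      intro a
      exact sum_type hC (fun y => if t ≤ V (tR a) + W y then 1 else 0)
    rw [sum_congr rfl fun a _ => h1 a]
    rw [sum_type hR (fun x => ∑ y, gam y * (if t ≤ V x + W y then 1 else 0))]
    unfold cells
    refine sum_congr rfl fun x _ => ?_
    rw [smul_eq_mul, mul_sum]
    refine sum_congr rfl fun y _ => ?_
    split_ifs <;> simp
  refine ⟨fun i => univ.filter (fun p => ∀ j, (i : ℕ) + 1 ≤ kk j → lv j ≤ w p), ?_, ?_⟩
  · intro i
    have hne : (univ.filter (fun j : Fin 82 => (i : ℕ) + 1 ≤ kk j)).Nonempty := by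
      refine ⟨81, ?_⟩
      simp only [mem_filter, mem_univ, true_and]
      rw [kk_last, ← hn]
      exact i.2
    obtain ⟨j0, hj0, hmin⟩ := Finset.exists_min_image _ (fun j : Fin 82 => j) hne
    simp only [mem_filter, mem_univ, true_and] at hj0 hmin
    calc ((i : ℕ) + 1) * n ≤ kk j0 * n := Nat.mul_le_mul_right _ hj0
      _ = kk j0 * nn := by rw [hn]
      _ ≤ cells (lv j0) := kk_cells j0
      _ = (univ.filter (fun p => lv j0 ≤ w p)).card := (hcard _).symm
      _ ≤ _ := by
        refine card_le_card ?_
        intro p hp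
        simp only [mem_filter, mem_univ, true_and] at hp ⊢
        intro j hj
        exact (lv_anti j0 j (hmin j hj)).trans hp
  · rintro ⟨e, he, hd⟩
    simp only [mem_filter, mem_univ, true_and] at he
    have hb1 : Function.Bijective (fun i => (e i).1) := by
      refine Finite.injective_iff_bijective.mp ?_
      intro i j hij
      by_contra hne
      exact (hd i j hne).1 hij
    have hb2 : Function.Bijective (fun i => (e i).2) := by
      refine Finite.injective_iff_bijective.mp ?_
      intro i j hij
      by_contra hne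
      exact (hd i j hne).2 hij
    -- the number of chosen edges in each upper level set
    let c : Fin 82 → ℕ := fun j => (univ.filter (fun i : Fin n => lv j ≤ w (e i))).card
    have hc : ∀ j, kk j ≤ c j := by
      intro j
      have hle : kk j ≤ n := by rw [hn]; exact kk_le j
      have h1 : (univ : Finset (Fin (kk j))).card ≤ c j := by
        refine Finset.card_le_card_of_injOn (fun a => Fin.castLE hle a) ?_ ?_
        · intro a _
          simp only [coe_filter, mem_univ, true_and, Set.mem_ofPred_eq]
          exact he _ j a.2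
        · intro a _ b _ hab
          exact Fin.castLE_injective hle hab
      simpa using h1
    -- total weight
    have hw1 : ∑ i, w (e i) = (∑ x, (rho x : ℤ) * V x) + ∑ y, (gam y : ℤ) * W y := by
      have a1 : ∑ i, V (tR (e i).1) = ∑ x, (rho x : ℤ) * V x := by
        rw [Function.Bijective.sum_comp hb1 (fun a => V (tR a)), sum_type hR V]
        simp
      have a2 : ∑ i, W (tC (e i).2) = ∑ y, (gam y : ℤ) * W y := by
        rw [Function.Bijective.sum_comp hb2 (fun a => W (tC a)), sum_type hC W]
        simp
      rw [← a1, ← a2, ← sum_add_distrib]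
    have hw2 : ∑ i, w (e i) = (nn : ℤ) * ((-222)) + ∑ j, dl j * (c j : ℤ) := by
      have a1 : ∀ i, w (e i) = (-222) + ∑ j : Fin 82, if lv j ≤ w (e i) then dl j else 0 :=
        fun i => weight_eq _ _
      have a2 : ∑ _i : Fin n, (-222 : ℤ) = (nn : ℤ) * (-222) := by
        rw [sum_const, card_univ, Fintype.card_fin, nsmul_eq_mul, hn]
      have a3 : ∑ j : Fin 82, ∑ i : Fin n, (if lv j ≤ w (e i) then dl j else 0)
          = ∑ j, dl j * (c j : ℤ) := by
        refine sum_congr rfl fun j _ => ?_
        rw [← Finset.sum_filter, sum_const, nsmul_eq_mul, mul_comm]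
      rw [sum_congr rfl fun i _ => a1 i, sum_add_distrib, sum_comm, a2, a3]
    have hw3 : ∑ j, dl j * ((c j : ℤ) - kk j) = 1 := by
      have := total_eq
      rw [← hw1, hw2] at this
      simp only [mul_sub, sum_sub_distrib]
      linarith
    have hnn : ∀ j, 0 ≤ dl j * ((c j : ℤ) - kk j) := by
      intro j
      refine mul_nonneg (dl_nonneg j) ?_
      have := hc j
      have : (kk j : ℤ) ≤ c j := by exact_mod_cast this
      linarith
    have hodd : ∀ j, ta j * c j = ta j * kk j := by
      intro j
      rcases ta_dl j with h0 | h2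
      · rw [h0]; simp
      · have h3 : dl j * ((c j : ℤ) - kk j) ≤ 1 := by
          rw [← hw3]
          exact Finset.single_le_sum (fun j _ => hnn j) (mem_univ j)
        have h4 : (kk j : ℤ) ≤ c j := by exact_mod_cast hc j
        have h5 : (c j : ℤ) = kk j := by
          by_contra hne
          have h6 : 1 ≤ (c j : ℤ) - kk j := by omega
          nlinarith
        have h7 : c j = kk j := by exact_mod_cast h5
        rw [h7]
    -- parity
    have b1 : ∑ i, (if tR (e i).1 = 4 then 1 else 0) = rho 4 := by
      rw [← hR 4, Finset.card_filter]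
      exact Function.Bijective.sum_comp hb1 (fun a => if tR a = 4 then 1 else 0)
    have b2 : ∑ i, (if tC (e i).2 = 4 then 1 else 0) = gam 4 := by
      rw [← hC 4, Finset.card_filter]
      exact Function.Bijective.sum_comp hb2 (fun a => if tC a = 4 then 1 else 0)
    have hp1 : ∑ i, ph (tR (e i).1) (tC (e i).2) = rho 4 + gam 4 := by
      rw [← b1, ← b2, ← sum_add_distrib]
      rfl
    have hp2 : (∑ i, ph (tR (e i).1) (tC (e i).2)) % 2 = (∑ j, ta j * c j) % 2 := by
      rw [Finset.sum_nat_mod]
      rw [sum_congr rfl fun i _ => parity_eq (tR (e i).1) (tC (e i).2)]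
      have a3 : ∑ j : Fin 82, ∑ i : Fin n, (if lv j ≤ V (tR (e i).1) + W (tC (e i).2)
          then ta j else 0) = ∑ j, ta j * c j := by
        refine sum_congr rfl fun j _ => ?_
        rw [← Finset.sum_filter, sum_const, smul_eq_mul, mul_comm]
      rw [← Finset.sum_nat_mod, sum_comm, a3]
    rw [hp1, sum_congr rfl fun j _ => hodd j] at hp2
    exact total_parity hp2

/-- The condition `|F_i| ≥ i n` does not force a rainbow matching. -/
theorem result : ¬ ∀ n k : ℕ, 1 ≤ n → 1 ≤ k → ∀ F : Fin k → Finset (Fin n × Fin n),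
    (∀ i : Fin k, ((i : ℕ) + 1) * n ≤ (F i).card) →
    ∃ e : Fin k → Fin n × Fin n, (∀ i, e i ∈ F i) ∧
      ∀ i j, i ≠ j → (e i).1 ≠ (e j).1 ∧ (e i).2 ≠ (e j).2 := by
  intro H
  obtain ⟨F, hF, hno⟩ := main (n := nn) rfl
  exact hno (H nn nn (by decide +kernel) (by decide +kernel) F hF)

end Pool.Agent.Results.MP_0e6f11_co.SizeConditionFails
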